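import Mathlib
import Pool.Prelude.Def_F_c31e40fa
import Pool.Agent.K1H31.Area
import Pool.Agent.Y736.RN.M

set_option autoImplicit false

open Filter Topology Set Metric MeasureTheory Complex N62a1eb23

namespace Pool.Agent.Results.MP_b511e9_an.AreaDecayDimension

/-- The escape rate (Green's function) of `z ↦ z ^ 2 + c` at the point `z`. -/
noncomputable def escapeRate (c z : ℂ) : ℝ :=
  limsup (fun n : ℕ => Real.posLog ‖(fun w : ℂ => w ^ 2 + c)^[n] z‖ / (2 : ℝ) ^ n) atTop

/-- The area of the set of points whose escape rate is at most `s`. -/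
noncomputable def area (c : ℂ) (s : ℝ) : ℝ := (volume {z : ℂ | escapeRate c z ≤ s}).toReal

/-- `g` is proper of degree at most `2` from the bounded open set `U` onto a set which contains the
closure of `U`. Polynomial-like maps of degree `2` have this property. -/
def PolynomialLike (g : ℂ → ℂ) (U : Set ℂ) : Prop :=
  IsOpen U ∧ Bornology.IsBounded U ∧ closure U ⊆ g '' U ∧
    (∀ K ⊆ g '' U, IsCompact K → IsCompact {z | z ∈ U ∧ g z ∈ K}) ∧
    ∀ w ∈ g '' U, {z | z ∈ U ∧ g z = w}.encard ≤ 2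

/-- `z ↦ z ^ 2 + c` is renormalizable of period `p` (for `p = 1` this is so for all `c` in the
Mandelbrot set). -/
def Renormalizable (c : ℂ) (p : ℕ) : Prop :=
  ∃ U : Set ℂ, PolynomialLike ((fun z : ℂ => z ^ 2 + c)^[p]) U ∧ (0 : ℂ) ∈ U ∧
    ∀ n : ℕ, 1 ≤ n → (fun z : ℂ => z ^ 2 + c)^[n * p] 0 ∈ U

/-- **Infinitely renormalizable parameters with polynomial decay of the areas.** The parameters that
are renormalizable of period `p` and at which the area of the set of points with escape rate at most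
`s` is at most `s ^ α` for arbitrarily small `s` form a set of Hausdorff dimension at most
`1 / (α p)`. The infinitely renormalizable parameters with this property for some `α > 0` form a
totally disconnected set of Hausdorff dimension zero. -/
theorem result :
    (∀ (p : ℕ) (α : ℝ), 1 ≤ p → 0 < α →
      dimH {c : ℂ | Renormalizable c p ∧ ∃ᶠ s : ℝ in 𝓝[>] 0, area c s ≤ s ^ α} ≤
        ENNReal.ofReal (1 / (α * p))) ∧
    dimH {c : ℂ | {p : ℕ | Renormalizable c p}.Infinite ∧ ∃ α : ℝ, 0 < α ∧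
      ∃ᶠ s : ℝ in 𝓝[>] 0, area c s ≤ s ^ α} = 0 ∧
    IsTotallyDisconnected {c : ℂ | {p : ℕ | Renormalizable c p}.Infinite ∧ ∃ α : ℝ, 0 < α ∧
      ∃ᶠ s : ℝ in 𝓝[>] 0, area c s ≤ s ^ α} := by
  have h2 : dimH {c : ℂ | {p : ℕ | Renormalizable c p}.Infinite ∧ ∃ α : ℝ, 0 < α ∧
      ∃ᶠ s : ℝ in 𝓝[>] 0, area c s ≤ s ^ α} = 0 := by
    have h := Pool.Agent.K1H31.Area.dim_area_inf (d := 2) le_rfl
    exact h
  refine ⟨?_, h2, Pool.Agent.Y736.RN.totallyDisconnected_of_dimH (by rw [h2]; norm_num)⟩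
  intro p α hp hα
  exact Pool.Agent.K1H31.Area.dim_area (d := 2) le_rfl hp hα

end Pool.Agent.Results.MP_b511e9_an.AreaDecayDimension
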