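import Mathlib
import Pool.Prelude.Def_F_c31e40fa
import Pool.Agent.K1H31.Cen
import Pool.Agent.Y736.RN.M

set_option autoImplicit false

open Filter Topology Set Metric MeasureTheory Complex N62a1eb23

namespace Pool.Agent.Results.MP_b511e9_an.SparseCentres

/-- The map `z ↦ z ^ 2 + c`. -/
def f (c : ℂ) : ℂ → ℂ := fun z => z ^ 2 + c

/-- The superattracting parameters of period dividing `n` (centres of hyperbolic components) in the
open disc of radius `r` about `c`: the parameters `a` such that `f_a^n (0) = 0`. -/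
def centres (n : ℕ) (c : ℂ) (r : ℝ) : Set ℂ := {a | a ∈ ball c r ∧ (f a)^[n] 0 = 0}

/-- `g` is proper of degree at most `2` from the bounded open set `U` onto a set which contains the
closure of `U`. Polynomial-like maps of degree `2` have this property. -/
def PolynomialLike (g : ℂ → ℂ) (U : Set ℂ) : Prop :=
  IsOpen U ∧ Bornology.IsBounded U ∧ closure U ⊆ g '' U ∧
    (∀ K ⊆ g '' U, IsCompact K → IsCompact {z | z ∈ U ∧ g z ∈ K}) ∧
    ∀ w ∈ g '' U, {z | z ∈ U ∧ g z = w}.encard ≤ 2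

/-- `z ↦ z ^ 2 + c` is renormalizable of period `p` (for `p = 1` this is so for all `c` in the
Mandelbrot set). -/
def Renormalizable (c : ℂ) (p : ℕ) : Prop :=
  ∃ U : Set ℂ, PolynomialLike ((f c)^[p]) U ∧ (0 : ℂ) ∈ U ∧
    ∀ n : ℕ, 1 ≤ n → (f c)^[n * p] 0 ∈ U

/-- All small discs of radius `r` about `c` contain at most `2 ^ (n - 1) * r ^ κ + K * n` of the
`2 ^ (n - 1)` superattracting parameters of period dividing `n`, for all `n ≥ 1` at the same
time. -/
def Few (K κ : ℝ) (c : ℂ) : Prop :=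
  ∀ᶠ r : ℝ in 𝓝[>] 0, ∀ n : ℕ, 1 ≤ n →
    ((centres n c r).ncard : ℝ) ≤ 2 ^ (n - 1) * r ^ κ + K * n

/-- Subexponential bounds: for every `ε > 0` there are infinitely many `p` for which the points
`f_c^(n p) (0)`, `n ≥ 0`, have a neighbourhood `U` which contains the discs of some radius `r`
about them, and whose image under `f_c^p` has diameter at most `exp (ε p) r`. -/
def Subexponential (c : ℂ) : Prop :=
  ∀ ε : ℝ, 0 < ε → {p : ℕ | ∃ (U : Set ℂ) (r : ℝ), 0 < r ∧
    (∀ n : ℕ, ball ((f c)^[n * p] 0) r ⊆ U) ∧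
    ∀ z ∈ U, ∀ z' ∈ U, ‖(f c)^[p] z - (f c)^[p] z'‖ ≤ Real.exp (ε * p) * r}.Infinite

theorem few_of {κ : ℝ} {c : ℂ} (h : Pool.Agent.K1H31.Cen.Few 2 κ c) :
    Few (Pool.Agent.R240.LL.KL * Real.log 2) κ c := by
  unfold Pool.Agent.K1H31.Cen.Few at h
  unfold Few
  filter_upwards [h] with r hr n hn
  have h1 := hr n hn
  have h2 : (centres n c r).ncard = (Pool.Agent.R240.Sparse.cen 2 n c r).ncard := rfl
  rw [h2]
  refine h1.trans (le_of_eq ?_)
  push_cast
  ring

/-- **Few centres of hyperbolic components near infinitely renormalizable parameters.** The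
parameters that are renormalizable of period `p` and have too many centres nearby for the exponent
`κ` form a set of Hausdorff dimension at most `κ / p`. The infinitely renormalizable parameters that
have too many centres nearby for some exponent form a totally disconnected set of Hausdorff dimension
zero, which contains no parameters of the Mandelbrot set with subexponential bounds. -/
theorem result :
    ∃ K : ℝ, 0 < K ∧
      (∀ n : ℕ, 1 ≤ n → ∀ (c : ℂ) (r : ℝ), (centres n c r).Finite) ∧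
      (∀ (p : ℕ) (κ : ℝ), 1 ≤ p → 0 ≤ κ →
        dimH {c : ℂ | Renormalizable c p ∧ ¬ Few K κ c} ≤ ENNReal.ofReal (κ / p)) ∧
      dimH {c : ℂ | {p : ℕ | Renormalizable c p}.Infinite ∧ ∃ κ : ℝ, 0 < κ ∧ ¬ Few K κ c} = 0 ∧
      IsTotallyDisconnected
        {c : ℂ | {p : ℕ | Renormalizable c p}.Infinite ∧ ∃ κ : ℝ, 0 < κ ∧ ¬ Few K κ c} ∧
      ∀ c ∈ multibrotSet 2, Subexponential c → ∀ κ : ℝ, 0 < κ → Few K κ c := by
  have h2 : dimH {c : ℂ | {p : ℕ | Renormalizable c p}.Infinite ∧ ∃ κ : ℝ, 0 < κ ∧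
      ¬ Few (Pool.Agent.R240.LL.KL * Real.log 2) κ c} = 0 := by
    apply le_antisymm _ bot_le
    refine (dimH_mono ?_).trans (Pool.Agent.K1H31.Cen.dim_many_inf (d := 2) le_rfl).le
    rintro c ⟨h1, κ, hκ, h3⟩
    exact ⟨h1, κ, hκ, fun h4 => h3 (few_of h4)⟩
  refine ⟨Pool.Agent.R240.LL.KL * Real.log 2, mul_pos Pool.Agent.R240.LL.KL_pos
    (Real.log_pos (by norm_num)), ?_, ?_, h2,
    Pool.Agent.Y736.RN.totallyDisconnected_of_dimH (by rw [h2]; norm_num), ?_⟩
  · intro n hn c r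
    obtain ⟨N, rfl⟩ : ∃ N, n = N + 1 := ⟨n - 1, by omega⟩
    exact (Pool.Agent.R240.LL.ZZ 2 N).finite_toSet.subset fun a ha =>
      (Pool.Agent.R240.LL.mem_ZZ le_rfl).2 ha.2
  · intro p κ hp hκ
    refine (dimH_mono ?_).trans (Pool.Agent.K1H31.Cen.dim_many (d := 2) le_rfl hp hκ)
    rintro c ⟨h1, h3⟩
    exact ⟨h1, fun h4 => h3 (few_of h4)⟩
  · intro c hc h κ hκ
    exact few_of (Pool.Agent.K1H31.Cen.few_of_weak (d := 2) le_rfl hc h hκ)

end Pool.Agent.Results.MP_b511e9_an.SparseCentres
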